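import Pool.Agent.W_2cf66e_Q.Def

/-!
# MP_2cf66e_nt: one quartic inequality, quartic exponents: proof
-/

set_option autoImplicit false

noncomputable section

open MeasureTheory Matrix
open scoped ENNReal

namespace Pool.Agent.Quart

variable {m N : ℕ}

theorem cont_entry (c : Fin N → Fin N → Fin (m + 2)) (i j : Fin N) :
    Continuous fun z : Fin m → ℝ => OneIneq.mat c z i j := by
  have h : ∀ k : Fin (m + 2), Continuous fun z : Fin m → ℝ =>
      (Fin.cons 0 (Fin.cons 1 z) : Fin (m + 2) → ℝ) k := by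
    intro k
    refine Fin.cases ?_ (fun k => ?_) k
    · simpa only [Fin.cons_zero] using continuous_const
    · refine Fin.cases ?_ (fun k => ?_) k
      · simpa only [Fin.cons_succ, Fin.cons_zero] using continuous_const
      · simpa only [Fin.cons_succ] using continuous_apply k
  exact h (c i j)

theorem cont_mat (c : Fin N → Fin N → Fin (m + 2)) :
    Continuous fun z : Fin m → ℝ => OneIneq.mat c z :=
  continuous_matrix fun i j => cont_entry c i j

theorem cont_det (c : Fin N → Fin N → Fin (m + 2)) :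
    Continuous fun z : Fin m → ℝ => (OneIneq.mat c z).det :=
  (cont_mat c).matrix_det

theorem cont_mul (c : Fin N → Fin N → Fin (m + 2)) :
    Continuous fun p : (Fin m → ℝ) × (Fin N → ℝ) => OneIneq.mat c p.1 *ᵥ p.2 :=
  ((cont_mat c).comp continuous_fst).matrix_mulVec continuous_snd

theorem nrm_eq (c : Fin N → Fin N → Fin (m + 2)) (p : (Fin m → ℝ) × (Fin N → ℝ)) :
    nrm c p = ∑ i, ((OneIneq.mat c p.1 *ᵥ p.2) i) ^ 2 := rfl

/-- Substitution `y = M(z) v` and Tonelli. -/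
theorem key (c : Fin N → Fin N → Fin (m + 2))
    (hd : ∀ z : Fin m → ℝ, 0 < (OneIneq.mat c z).det) (f : (Fin N → ℝ) → ℝ≥0∞)
    (hf : Measurable f) :
    ∫⁻ p : (Fin m → ℝ) × (Fin N → ℝ), f (OneIneq.mat c p.1 *ᵥ p.2) =
      (∫⁻ z : Fin m → ℝ, ENNReal.ofReal (1 / (OneIneq.mat c z).det)) * ∫⁻ v, f v := by
  have h1 : ∀ z : Fin m → ℝ, ∫⁻ v : Fin N → ℝ, f (OneIneq.mat c z *ᵥ v) =
      ENNReal.ofReal (1 / (OneIneq.mat c z).det) * ∫⁻ v, f v := by
    intro z
    have h2 := Real.map_matrix_volume_pi_eq_smul_volume_pi (hd z).ne'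
    have h3 : Measurable (toLin' (OneIneq.mat c z)) :=
      (LinearMap.continuous_on_pi _).measurable
    have h4 : ∫⁻ v : Fin N → ℝ, f (OneIneq.mat c z *ᵥ v) =
        ∫⁻ y, f y ∂(Measure.map (toLin' (OneIneq.mat c z)) volume) := by
      rw [lintegral_map hf h3]
      rfl
    rw [h4, h2, lintegral_smul_measure, abs_of_pos (inv_pos.2 (hd z)), one_div, smul_eq_mul]
  have h5 : Measurable fun p : (Fin m → ℝ) × (Fin N → ℝ) => f (OneIneq.mat c p.1 *ᵥ p.2) :=
    hf.comp (cont_mul c).measurable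
  rw [Measure.volume_eq_prod, lintegral_prod _ h5.aemeasurable]
  simp only [h1]
  rw [lintegral_mul_const]
  exact (measurable_const.div (cont_det c).measurable).ennreal_ofReal

theorem cont_sq : Continuous fun v : Fin N → ℝ => ∑ i, v i ^ 2 :=
  continuous_finsetSum _ fun i _ => (continuous_apply i).pow 2

theorem vol_eq (c : Fin N → Fin N → Fin (m + 2))
    (hd : ∀ z : Fin m → ℝ, 0 < (OneIneq.mat c z).det) :
    volume {p : (Fin m → ℝ) × (Fin N → ℝ) | nrm c p < 1} =
      volume {v : Fin N → ℝ | ∑ i, v i ^ 2 < 1} *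
        ∫⁻ z : Fin m → ℝ, ENNReal.ofReal (1 / (OneIneq.mat c z).det) := by
  have hB : MeasurableSet {v : Fin N → ℝ | ∑ i, v i ^ 2 < 1} :=
    (isOpen_lt cont_sq continuous_const).measurableSet
  have h := key c hd (Set.indicator {v : Fin N → ℝ | ∑ i, v i ^ 2 < 1} 1)
    (measurable_one.indicator hB)
  have h1 : ∫⁻ v : Fin N → ℝ, Set.indicator {v : Fin N → ℝ | ∑ i, v i ^ 2 < 1} 1 v =
      volume {v : Fin N → ℝ | ∑ i, v i ^ 2 < 1} := lintegral_indicator_one hB
  have hA : MeasurableSet {p : (Fin m → ℝ) × (Fin N → ℝ) | nrm c p < 1} :=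
    (isOpen_lt (cont_sq.comp (cont_mul c)) continuous_const).measurableSet
  have h2 : ∫⁻ p : (Fin m → ℝ) × (Fin N → ℝ),
      Set.indicator {v : Fin N → ℝ | ∑ i, v i ^ 2 < 1} 1 (OneIneq.mat c p.1 *ᵥ p.2) =
      volume {p : (Fin m → ℝ) × (Fin N → ℝ) | nrm c p < 1} := by
    rw [← lintegral_indicator_one hA]
    rfl
  rw [← h2, h, h1, mul_comm]

/-- The integral of `1 / det M` is `y` iff the corresponding Lebesgue integral is. -/
theorem det_iff (c : Fin N → Fin N → Fin (m + 2))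
    (hd : ∀ z : Fin m → ℝ, 0 < (OneIneq.mat c z).det) {y : ℝ} (hy : 0 < y) :
    (∫⁻ z : Fin m → ℝ, ENNReal.ofReal (1 / (OneIneq.mat c z).det)) = ENNReal.ofReal y ↔
      Integrable (fun z : Fin m → ℝ => 1 / (OneIneq.mat c z).det) volume ∧
        (∫ z : Fin m → ℝ, 1 / (OneIneq.mat c z).det) = y := by
  have hp : ∀ z : Fin m → ℝ, 0 ≤ 1 / (OneIneq.mat c z).det := fun z =>
    (one_div_pos.2 (hd z)).le
  have hm : Measurable fun z : Fin m → ℝ => 1 / (OneIneq.mat c z).det :=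
    measurable_const.div (cont_det c).measurable
  constructor
  · intro h
    refine ⟨⟨hm.aestronglyMeasurable, ?_⟩, ?_⟩
    · rw [hasFiniteIntegral_iff_ofReal (Filter.Eventually.of_forall hp), h]
      exact ENNReal.ofReal_lt_top
    · rw [integral_eq_lintegral_of_nonneg_ae (Filter.Eventually.of_forall hp)
        hm.aestronglyMeasurable, h, ENNReal.toReal_ofReal hy.le]
  · rintro ⟨hi, hv⟩
    rw [← ofReal_integral_eq_lintegral_ofReal hi (Filter.Eventually.of_forall hp), hv]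

theorem box_iff {y : ℝ} (hy : 0 < y) : BoxVol m y ↔ NF59.DetInt m y := by
  unfold BoxVol NF59.DetInt
  refine exists_congr fun N => exists_congr fun c => and_congr_right fun hd => ?_
  have hB : MeasurableSet (Set.univ.pi fun _ : Fin N => Set.Ioo (0 : ℝ) 1) :=
    MeasurableSet.univ_pi fun _ => measurableSet_Ioo
  have h := key c hd (Set.indicator (Set.univ.pi fun _ : Fin N => Set.Ioo (0 : ℝ) 1) 1)
    (measurable_one.indicator hB)
  have h1 : ∫⁻ v : Fin N → ℝ,
      Set.indicator (Set.univ.pi fun _ : Fin N => Set.Ioo (0 : ℝ) 1) 1 v = 1 := by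
    rw [lintegral_indicator_one hB, Real.volume_pi_Ioo]
    simp
  have hA : {p : (Fin m → ℝ) × (Fin N → ℝ) | ∀ i, 0 < ∑ j, OneIneq.mat c p.1 i j * p.2 j ∧
      ∑ j, OneIneq.mat c p.1 i j * p.2 j < 1} =
      (fun p : (Fin m → ℝ) × (Fin N → ℝ) => OneIneq.mat c p.1 *ᵥ p.2) ⁻¹'
        (Set.univ.pi fun _ : Fin N => Set.Ioo (0 : ℝ) 1) := by
    ext p
    simp only [Set.mem_ofPred_eq, Set.mem_preimage, Set.mem_univ_pi, Set.mem_Ioo]
    rfl
  have h2 : ∫⁻ p : (Fin m → ℝ) × (Fin N → ℝ),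
      Set.indicator (Set.univ.pi fun _ : Fin N => Set.Ioo (0 : ℝ) 1) 1
        (OneIneq.mat c p.1 *ᵥ p.2) =
      volume {p : (Fin m → ℝ) × (Fin N → ℝ) | ∀ i, 0 < ∑ j, OneIneq.mat c p.1 i j * p.2 j ∧
        ∑ j, OneIneq.mat c p.1 i j * p.2 j < 1} := by
    rw [hA, ← lintegral_indicator_one (hB.preimage (cont_mul c).measurable)]
    rfl
  rw [← h2, h, h1, mul_one, ← det_iff c hd hy]

theorem gauss : ∫⁻ v : Fin N → ℝ, ENNReal.ofReal (Real.exp (-∑ i, v i ^ 2)) =
    ENNReal.ofReal (Real.pi ^ ((N : ℝ) / 2)) := by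
  have h1 : (fun v : Fin N → ℝ => Real.exp (-∑ i, v i ^ 2)) =
      fun v => ∏ i, Real.exp (-1 * v i ^ 2) := by
    funext v
    rw [← Real.exp_sum, ← Finset.mul_sum, neg_one_mul]
  have hi : Integrable (fun v : Fin N → ℝ => ∏ i, Real.exp (-1 * v i ^ 2)) volume :=
    Integrable.fintype_prod (f := fun _ : Fin N => fun t : ℝ => Real.exp (-1 * t ^ 2))
      fun _ => integrable_exp_neg_mul_sq one_pos
  rw [← ofReal_integral_eq_lintegral_ofReal (by rw [h1]; exact hi)
    (Filter.Eventually.of_forall fun v => (Real.exp_pos _).le)]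
  congr 1
  rw [h1, integral_fintype_prod_volume_eq_pow (fun t : ℝ => Real.exp (-1 * t ^ 2)),
    integral_gaussian, Fintype.card_fin, div_one, Real.sqrt_eq_rpow, ← Real.rpow_natCast,
    ← Real.rpow_mul Real.pi_pos.le]
  congr 1
  ring

theorem exp_eq (c : Fin N → Fin N → Fin (m + 2))
    (hd : ∀ z : Fin m → ℝ, 0 < (OneIneq.mat c z).det) :
    ∫⁻ p : (Fin m → ℝ) × (Fin N → ℝ), ENNReal.ofReal (Real.exp (-nrm c p)) =
      ENNReal.ofReal (Real.pi ^ ((N : ℝ) / 2)) *
        ∫⁻ z : Fin m → ℝ, ENNReal.ofReal (1 / (OneIneq.mat c z).det) := by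
  have h := key c hd (fun v => ENNReal.ofReal (Real.exp (-∑ i, v i ^ 2)))
    (Real.continuous_exp.comp cont_sq.neg).measurable.ennreal_ofReal
  rw [gauss, mul_comm] at h
  exact h

theorem ball_pos : volume {v : Fin N → ℝ | ∑ i, v i ^ 2 < 1} ≠ 0 := by
  refine ((isOpen_lt cont_sq continuous_const).measure_pos volume ⟨0, ?_⟩).ne'
  simp

theorem ball_fin : volume {v : Fin N → ℝ | ∑ i, v i ^ 2 < 1} ≠ ⊤ := by
  refine ne_top_of_le_ne_top (measure_closedBall_lt_top (x := (0 : Fin N → ℝ)) (r := 1)).ne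
    (measure_mono fun v hv => ?_)
  rw [mem_closedBall_zero_iff, pi_norm_le_iff_of_nonneg zero_le_one]
  intro i
  rw [Real.norm_eq_abs, ← sq_le_one_iff_abs_le_one]
  exact (Finset.single_le_sum (fun j _ => sq_nonneg (v j)) (Finset.mem_univ i)).trans hv.le

theorem vol_iff {y : ℝ} (hy : 0 < y) : QuarticVol m y ↔ NF59.DetInt m y := by
  unfold QuarticVol NF59.DetInt
  refine exists_congr fun N => exists_congr fun c => and_congr_right fun hd => ?_
  rw [vol_eq c hd, ← det_iff c hd hy]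
  exact (ENNReal.mul_right_inj ball_pos ball_fin)

theorem exp_iff {y : ℝ} (hy : 0 < y) : QuarticExp m y ↔ NF59.DetInt m y := by
  unfold QuarticExp NF59.DetInt
  refine exists_congr fun N => exists_congr fun c => and_congr_right fun hd => ?_
  rw [← det_iff c hd hy]
  have hpi : 0 < Real.pi ^ ((N : ℝ) / 2) := Real.rpow_pos_of_pos Real.pi_pos _
  have hc : Continuous fun p : (Fin m → ℝ) × (Fin N → ℝ) => Real.exp (-nrm c p) :=
    Real.continuous_exp.comp (cont_sq.comp (cont_mul c)).neg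
  have hp : ∀ p : (Fin m → ℝ) × (Fin N → ℝ), 0 ≤ Real.exp (-nrm c p) := fun p =>
    (Real.exp_pos _).le
  have h0 : ENNReal.ofReal (Real.pi ^ ((N : ℝ) / 2)) ≠ 0 := by
    rw [Ne, ENNReal.ofReal_eq_zero, not_le]
    exact hpi
  have key2 : (∫⁻ z : Fin m → ℝ, ENNReal.ofReal (1 / (OneIneq.mat c z).det)) =
      ENNReal.ofReal y ↔ ∫⁻ p : (Fin m → ℝ) × (Fin N → ℝ), ENNReal.ofReal (Real.exp (-nrm c p)) =
        ENNReal.ofReal (Real.pi ^ ((N : ℝ) / 2) * y) := by
    rw [exp_eq c hd, ENNReal.ofReal_mul hpi.le]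
    exact (ENNReal.mul_right_inj h0 ENNReal.ofReal_ne_top).symm
  rw [key2]
  constructor
  · rintro ⟨hi, hv⟩
    rw [← ofReal_integral_eq_lintegral_ofReal hi (Filter.Eventually.of_forall hp), hv]
  · intro h
    refine ⟨⟨hc.aestronglyMeasurable, ?_⟩, ?_⟩
    · rw [hasFiniteIntegral_iff_ofReal (Filter.Eventually.of_forall hp), h]
      exact ENNReal.ofReal_lt_top
    · rw [integral_eq_lintegral_of_nonneg_ae (Filter.Eventually.of_forall hp)
        hc.aestronglyMeasurable, h, ENNReal.toReal_ofReal (mul_pos hpi hy).le]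

end Pool.Agent.Quart
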