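import Pool.Agent.W_2cf66e_PS.Stmt59

/-!
# MP_2cf66e_nt: one quartic inequality, quartic exponents: definitions used in the statement
-/

set_option autoImplicit false

noncomputable section

open MeasureTheory

namespace Pool.Agent.Quart

/-- The polynomial `|M(z) v|^2` of degree at most `4` in the `m + N` variables `z`, `v`: the sum of
the squares of the `N` numbers `∑ j, M_ij(z) v_j`, where `M(z)` is the `N × N` matrix with the code
`c`, each entry of which is `0`, `1` or one of `z_1, ..., z_m`. -/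
def nrm {m N : ℕ} (c : Fin N → Fin N → Fin (m + 2)) (p : (Fin m → ℝ) × (Fin N → ℝ)) : ℝ :=
  ∑ i, (∑ j, OneIneq.mat c p.1 i j * p.2 j) ^ 2

/-- For some square matrix `M(z)`, each of whose entries is `0`, `1` or one of `z_1, ..., z_m`, with
`det M(z) > 0` at every point of `ℝ^m`, the volume of the set of the `(z, v)` in `ℝ^m × ℝ^N` such
that all coordinates of `M(z) v` lie between `0` and `1` is `y`. -/
def BoxVol (m : ℕ) (y : ℝ) : Prop :=
  ∃ (N : ℕ) (c : Fin N → Fin N → Fin (m + 2)),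
    (∀ z : Fin m → ℝ, 0 < (OneIneq.mat c z).det) ∧
    volume {p : (Fin m → ℝ) × (Fin N → ℝ) |
      ∀ i, 0 < ∑ j, OneIneq.mat c p.1 i j * p.2 j ∧ ∑ j, OneIneq.mat c p.1 i j * p.2 j < 1} =
      ENNReal.ofReal y

/-- For some square matrix `M(z)`, each of whose entries is `0`, `1` or one of `z_1, ..., z_m`, with
`det M(z) > 0` at every point of `ℝ^m`, the volume of the set of the `(z, v)` in `ℝ^m × ℝ^N` with
`|M(z) v| < 1` is `y` times the volume of the unit ball of `ℝ^N`. -/
def QuarticVol (m : ℕ) (y : ℝ) : Prop :=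
  ∃ (N : ℕ) (c : Fin N → Fin N → Fin (m + 2)),
    (∀ z : Fin m → ℝ, 0 < (OneIneq.mat c z).det) ∧
    volume {p : (Fin m → ℝ) × (Fin N → ℝ) | nrm c p < 1} =
      volume {v : Fin N → ℝ | ∑ i, v i ^ 2 < 1} * ENNReal.ofReal y

/-- For some square matrix `M(z)`, each of whose entries is `0`, `1` or one of `z_1, ..., z_m`, with
`det M(z) > 0` at every point of `ℝ^m`, the absolutely convergent integral of `exp (-|M(z) v|^2)`
over the `(z, v)` in `ℝ^m × ℝ^N` is `π ^ (N / 2) y`. -/
def QuarticExp (m : ℕ) (y : ℝ) : Prop :=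
  ∃ (N : ℕ) (c : Fin N → Fin N → Fin (m + 2)),
    (∀ z : Fin m → ℝ, 0 < (OneIneq.mat c z).det) ∧
    Integrable (fun p : (Fin m → ℝ) × (Fin N → ℝ) => Real.exp (-nrm c p)) volume ∧
    (∫ p : (Fin m → ℝ) × (Fin N → ℝ), Real.exp (-nrm c p)) = Real.pi ^ ((N : ℝ) / 2) * y

end Pool.Agent.Quart
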