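import Pool.Agent.Results.MP_2cf66e_nt.EveryDimension

/-!
The statement of EveryDimension on main before the quartic inequality was added, derived from the
new one.
-/

set_option autoImplicit false

open MeasureTheory

namespace Pool.Agent.Quart

open Pool.Agent.Results.MP_2cf66e_nt.EveryDimension

theorem landed (x : ℝ) :
    (0 < x → List.TFAE [
        Pool.Agent.CVol.IsPeriod x,
        ∃ (n : ℕ) (Q : MvPolynomial (Fin (n + 1)) ℤ),
          (∀ z : Fin (n + 1) → ℝ, 0 < (MvPolynomial.aeval z Q : ℝ)) ∧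
          HasIntegral 1 Q (Real.pi * x),
        ∃ n : ℕ, Pool.Agent.NF59.DetInt (n + 1) (Real.pi * x)] ∧
      ∀ n : ℕ, List.TFAE [
      ∃ P Q : MvPolynomial (Fin (n + 1)) ℚ, HasIntegral P Q (Real.pi * x),
      ∃ A B : MvPolynomial (Fin (n + 1)) ℤ,
        (∀ z : Fin (n + 1) → ℝ, 0 < (MvPolynomial.aeval z A : ℝ) ∧
          (MvPolynomial.aeval z A : ℝ) < MvPolynomial.aeval z B) ∧
        HasIntegral A B (Real.pi * x),
      ∃ u w : MvPolynomial (Fin (n + 1)) ℤ,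
        (∀ z : Fin (n + 1) → ℝ, 1 ≤ (MvPolynomial.aeval z u : ℝ) ∧
          (MvPolynomial.aeval z u : ℝ) ≤ MvPolynomial.aeval z w) ∧
        HasIntegral 1 (Pool.Agent.R59.GU u w) (Real.pi ^ 2 * x),
      ∃ S : Set (Fin (n + 1) → ℝ), Pool.Agent.CVol.IsSA S ∧ IsCompact S ∧
        volume S = ENNReal.ofReal x,
      ∃ S : Set (Fin (n + 1) → ℝ), Pool.Agent.CVol.IsSA S ∧ volume S = ENNReal.ofReal x]) ∧
    List.TFAE [
      Pool.Agent.CVol.IsPeriod x,
      ∃ (n : ℕ) (P Q : MvPolynomial (Fin (n + 1)) ℤ),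
        (∀ z : Fin (n + 1) → ℝ, |(MvPolynomial.aeval z P : ℝ)| < MvPolynomial.aeval z Q ∧
          (0 < x → 0 < (MvPolynomial.aeval z P : ℝ))) ∧
        HasIntegral P Q (Real.pi * x),
      ∃ (n : ℕ) (P Q : MvPolynomial (Fin (n + 1)) ℚ), HasIntegral P Q (Real.pi * x)] := by
  obtain ⟨h, h'⟩ := result x
  refine ⟨fun hx => ⟨?_, (h hx).2⟩, h'⟩
  have h1 := (h hx).1
  tfae_have 1 ↔ 2 := h1.out 0 1
  tfae_have 1 ↔ 3 := h1.out 0 2
  tfae_finish

end Pool.Agent.Quart
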